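import Pool.Agent.V5helper50.RC.Stm
import Pool.Agent.V5helper6.RS.LOWM

/-! Project RC, job LOWM2 -/

set_option autoImplicit false

open Finset

namespace Pool.Agent.V5helper41.RC

open Pool.Agent.V5helper50.RC (Chain A Rz S_LOWM2)
open Pool.Agent.V5helper50.RS (Tk M S_RES Tk_pos)
open Pool.Agent.V5helper6.RS (Gr Gr_mod sum_Gr Tk_eq pow_add_le two_pow_bound)

/-- the last coordinate and its shift -/
theorem core2 (k Q Z r w : ℕ) (hQ : 1 ≤ Q) (hr : r < Q) (hres : r ^ (k + 2) ≡ Z [MOD Q])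
    (hw : w ^ (k + 2) ≤ Z) (hbig : (k + 2) * Q * 2 ^ (k + 2) + 2 * Q ≤ w) :
    ∃ b, w + 1 ≤ b + Q ∧ b ^ (k + 2) ≤ Z ∧ b % Q = r ∧ ∃ v < Tk (k + 2) b,
      b ^ (k + 2) + Q * v = Z := by
  classical
  have hwZ : w ≤ Z := (Nat.le_self_pow (by omega) w).trans hw
  set x₀ := Nat.findGreatest (fun x => x ^ (k + 2) ≤ Z) Z with hx₀
  have h3 : w ≤ x₀ := Nat.le_findGreatest (P := fun x => x ^ (k + 2) ≤ Z) hwZ hw
  have h1 : x₀ ^ (k + 2) ≤ Z := by
    refine Nat.findGreatest_spec (P := fun x => x ^ (k + 2) ≤ Z) (Nat.zero_le Z) ?_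
    simp
  have h2 : Z < (x₀ + 1) ^ (k + 2) := by
    by_contra hcon
    rw [not_lt] at hcon
    have h4 : x₀ + 1 ≤ Z := (Nat.le_self_pow (by omega) _).trans hcon
    have h5 : x₀ + 1 ≤ x₀ :=
      Nat.le_findGreatest (P := fun x => x ^ (k + 2) ≤ Z) h4 hcon
    omega
  have hmod := Nat.div_add_mod (x₀ - r) Q
  have hlt := Nat.mod_lt (x₀ - r) hQ
  set x := r + Q * ((x₀ - r) / Q) with hx
  have hxx₀ : x ≤ x₀ := by omega
  have hx₀x : x₀ + 1 ≤ x + Q := by omega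
  have hxQ : x % Q = r := by rw [hx, Nat.add_mul_mod_self_left, Nat.mod_eq_of_lt hr]
  have hxk : x ^ (k + 2) ≤ Z := (Nat.pow_le_pow_left hxx₀ _).trans h1
  have hdvd : Q ∣ Z - x ^ (k + 2) := by
    rw [← Nat.modEq_iff_dvd' hxk]
    have e1 : x ≡ r [MOD Q] := by
      show x % Q = r % Q
      rw [hxQ, Nat.mod_eq_of_lt hr]
    exact (e1.pow _).trans hres
  obtain ⟨v, hv⟩ := hdvd
  refine ⟨x, by omega, hxk, hxQ, v, ?_, by omega⟩
  have hT := Tk_eq (k + 2) x (by omega) (by omega)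
  rw [show k + 2 - 1 = k + 1 from rfl] at hT
  have g1 : (x₀ + 1) ^ (k + 2) ≤ (x + Q) ^ (k + 2) := Nat.pow_le_pow_left hx₀x _
  have g2 : (x + Q) ^ (k + 1 + 1) ≤ x ^ (k + 1 + 1) + (k + 1 + 1) * Q * (x + Q) ^ (k + 1) :=
    pow_add_le x Q (k + 1)
  have g3 : (x + Q) ^ (k + 1) ≤ 2 * x ^ (k + 1) := by
    refine two_pow_bound k Q x ?_ (by omega)
    have q1 : (k + 1) * Q * 2 ^ k ≤ (k + 2) * Q * 2 ^ (k + 2) :=
      Nat.mul_le_mul (Nat.mul_le_mul_right _ (by omega))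
        (Nat.pow_le_pow_right (by norm_num) (by omega))
    omega
  have g4 : (k + 1 + 1) * Q * (x + Q) ^ (k + 1) ≤ Q * (2 * (k + 2) * x ^ (k + 1)) := by
    calc (k + 1 + 1) * Q * (x + Q) ^ (k + 1) ≤ (k + 1 + 1) * Q * (2 * x ^ (k + 1)) :=
          Nat.mul_le_mul_left _ g3
      _ = Q * (2 * (k + 2) * x ^ (k + 1)) := by ring
  have g5 : Q * (2 * (k + 2) * x ^ (k + 1)) ≤ Q * Tk (k + 2) x := by
    rw [hT]
    exact Nat.mul_le_mul_left _ (Nat.mul_le_mul_right _ (by omega))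
  have g6 : (x + Q) ^ (k + 1 + 1) = (x + Q) ^ (k + 2) := rfl
  have g7 : x ^ (k + 1 + 1) = x ^ (k + 2) := rfl
  have g8 : Q * v < Q * Tk (k + 2) x := by omega
  exact lt_of_mul_lt_mul_left g8 (Nat.zero_le _)

theorem block (Q : ℕ) (g : ℕ → ℕ) (a : ℕ) :
    ∑ x ∈ Ico a (a + Q), g (x % Q) = ∑ x ∈ range Q, g x := by
  induction a with
  | zero =>
    rw [zero_add, ← Finset.range_eq_Ico]
    exact Finset.sum_congr rfl fun x hx => by rw [Nat.mod_eq_of_lt (Finset.mem_range.1 hx)]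
  | succ a ih =>
    rcases Nat.eq_zero_or_pos Q with h | h
    · subst h; simp
    · rw [← ih, show a + 1 + Q = (a + Q) + 1 from by omega,
        Finset.sum_Ico_succ_top (by omega), Finset.sum_eq_sum_Ico_succ_bot (by omega : a < a + Q),
        Nat.add_mod_right, add_comm]

theorem blocks (Q : ℕ) (g : ℕ → ℕ) (a n : ℕ) :
    ∑ x ∈ Ico a (a + n * Q), g (x % Q) = n * ∑ x ∈ range Q, g x := by
  induction n with
  | zero => simp
  | succ n ih =>
    have h1 : a + (n + 1) * Q = (a + n * Q) + Q := by ring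
    rw [h1, ← Finset.sum_Ico_consecutive _ (Nat.le_add_right a (n * Q))
      (Nat.le_add_right (a + n * Q) Q), ih, block]
    ring

theorem interval_ge (Q : ℕ) (g : ℕ → ℕ) (a l : ℕ) :
    l / Q * ∑ x ∈ range Q, g x ≤ ∑ x ∈ Ico a (a + l), g (x % Q) := by
  rw [← blocks Q g a]
  refine Finset.sum_le_sum_of_subset (Finset.Ico_subset_Ico le_rfl ?_)
  have := Nat.div_mul_le_self l Q
  omega

theorem pow_gap (n γ c : ℕ) (hn : 1 ≤ n) : (c * γ) ^ n + γ ^ n ≤ ((c + 1) * γ) ^ n := by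
  rw [mul_pow, mul_pow]
  have h1 : c ^ n + 1 ≤ (c + 1) ^ n := Nat.pow_lt_pow_left (Nat.lt_succ_self c) (by omega)
  calc c ^ n * γ ^ n + γ ^ n = (c ^ n + 1) * γ ^ n := by ring
    _ ≤ (c + 1) ^ n * γ ^ n := Nat.mul_le_mul_right _ h1

/-- the range of `x` -/
theorem xrange (k d γ L Y l e : ℕ) (hd : 1 ≤ d) (hLγ : L ≤ 4096 * d * γ)
    (hl : (k + 2) * 2 ^ (k + 1) * (4096 * d) ^ (k + 2) * l ≤ L)
    (hY1 : (2 * e) ^ (k + 2) + (13 * γ) ^ (k + 2) ≤ Y) (hY2 : Y < (L + 1) ^ (k + 2)) :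
    ∃ a, 2 * e + 1 ≤ a ∧ a + l ≤ L + 1 ∧ ∀ x ∈ Ico a (a + l),
      x ^ (k + 2) + (12 * γ) ^ (k + 2) ≤ Y ∧ Y < x ^ (k + 2) + (13 * γ) ^ (k + 2) := by
  classical
  have he : 2 * e ≤ L := by
    have h1 : (2 * e) ^ (k + 2) < (L + 1) ^ (k + 2) := by omega
    have := lt_of_pow_lt_pow_left₀ _ (Nat.zero_le _) h1
    omega
  set x₁ := Nat.findGreatest (fun x => x ^ (k + 2) + (13 * γ) ^ (k + 2) ≤ Y) L with hx₁
  have h1 : 2 * e ≤ x₁ := Nat.le_findGreatest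
    (P := fun x => x ^ (k + 2) + (13 * γ) ^ (k + 2) ≤ Y) he hY1
  have h2 : x₁ ^ (k + 2) + (13 * γ) ^ (k + 2) ≤ Y :=
    Nat.findGreatest_spec (P := fun x => x ^ (k + 2) + (13 * γ) ^ (k + 2) ≤ Y) he hY1
  have h3 : x₁ ≤ L := Nat.findGreatest_le L
  have hlL : l ≤ L := by
    refine le_trans (Nat.le_mul_of_pos_left _ ?_) hl
    positivity
  have h4 : (k + 2) * l * (x₁ + l) ^ (k + 1) ≤ γ ^ (k + 2) := by
    have g1 : (x₁ + l) ^ (k + 1) ≤ (2 * L) ^ (k + 1) := Nat.pow_le_pow_left (by omega) _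
    have g2 : (4096 * d) ^ (k + 2) * ((k + 2) * l * (x₁ + l) ^ (k + 1)) ≤
        (4096 * d) ^ (k + 2) * γ ^ (k + 2) := by
      calc (4096 * d) ^ (k + 2) * ((k + 2) * l * (x₁ + l) ^ (k + 1)) ≤
            (4096 * d) ^ (k + 2) * ((k + 2) * l * (2 * L) ^ (k + 1)) :=
            Nat.mul_le_mul_left _ (Nat.mul_le_mul_left _ g1)
        _ = ((k + 2) * 2 ^ (k + 1) * (4096 * d) ^ (k + 2) * l) * L ^ (k + 1) := by
            rw [mul_pow 2 L]; ring
        _ ≤ L * L ^ (k + 1) := Nat.mul_le_mul_right _ hl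
        _ = L ^ (k + 2) := by ring
        _ ≤ (4096 * d * γ) ^ (k + 2) := Nat.pow_le_pow_left hLγ _
        _ = (4096 * d) ^ (k + 2) * γ ^ (k + 2) := by rw [mul_pow]
    exact Nat.le_of_mul_le_mul_left g2 (by positivity)
  have h5 : (x₁ + l) ^ (k + 2) + (12 * γ) ^ (k + 2) ≤ Y := by
    have g1 := pow_add_le x₁ l (k + 1)
    have g2 : (k + 1 + 1) * l * (x₁ + l) ^ (k + 1) = (k + 2) * l * (x₁ + l) ^ (k + 1) := rfl
    have g3 : (x₁ + l) ^ (k + 1 + 1) = (x₁ + l) ^ (k + 2) := rfl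
    have g4 : x₁ ^ (k + 1 + 1) = x₁ ^ (k + 2) := rfl
    have g5 := pow_gap (k + 2) γ 12 (by omega)
    norm_num at g5
    omega
  have h6 : x₁ + l < L + 1 := by
    have g1 : (x₁ + l) ^ (k + 2) < (L + 1) ^ (k + 2) := by omega
    exact lt_of_pow_lt_pow_left₀ _ (Nat.zero_le _) g1
  refine ⟨x₁ + 1, by omega, by omega, fun x hx => ?_⟩
  rw [Finset.mem_Ico] at hx
  constructor
  · have g1 : x ^ (k + 2) ≤ (x₁ + l) ^ (k + 2) := Nat.pow_le_pow_left (by omega) _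
    omega
  · by_contra hcon
    rw [not_lt] at hcon
    have g1 : x ≤ x₁ := Nat.le_findGreatest
      (P := fun x => x ^ (k + 2) + (13 * γ) ^ (k + 2) ≤ Y) (by omega) hcon
    omega

theorem A_bound {K k : ℕ} {q : ℕ → ℕ} (hc : Chain K q) (t : ℕ → ℕ)
    (ht : ∀ y, t y < Tk (k + 2) y) {y L : ℕ} (hy : 1 ≤ y) (hyL : y ≤ L) :
    A (k + 2) q t y ≤ y ^ (k + 2) + q L * (4 * (k + 2) * L ^ (k + 1)) := by
  unfold Pool.Agent.V5helper50.RC.A
  have hT := Tk_eq (k + 2) y (by omega) hy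
  rw [show k + 2 - 1 = k + 1 from rfl] at hT
  have g3 : t y ≤ 4 * (k + 2) * L ^ (k + 1) := by
    refine (ht y).le.trans ?_
    rw [hT]
    exact Nat.mul_le_mul_left _ (Nat.pow_le_pow_left hyL _)
  exact Nat.add_le_add_left (Nat.mul_le_mul (hc.mono hyL) g3) _

theorem A_mod {k Q : ℕ} {q : ℕ → ℕ} (t : ℕ → ℕ) {y : ℕ} (h : Q ∣ q y) :
    A k q t y ≡ y ^ k [MOD Q] := by
  unfold Pool.Agent.V5helper50.RC.A
  obtain ⟨c, hc⟩ := h
  rw [hc, mul_assoc]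
  show (y ^ k + Q * (c * t y)) % Q = y ^ k % Q
  rw [Nat.add_mul_mod_self_left]

theorem sum_modEq {ι : Type} (s : Finset ι) (f g : ι → ℕ) (Q : ℕ) (h : ∀ i ∈ s, f i ≡ g i [MOD Q]) :
    ∑ i ∈ s, f i ≡ ∑ i ∈ s, g i [MOD Q] := by
  classical
  induction s using Finset.induction_on with
  | empty => exact Nat.ModEq.refl _
  | insert i s hi ih =>
    rw [Finset.sum_insert hi, Finset.sum_insert hi]
    exact Nat.ModEq.add (h i (Finset.mem_insert_self _ _))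
      (ih fun j hj => h j (Finset.mem_insert_of_mem hj))

/-- the pairs `(b, v)` for one `x` and one `z` -/
theorem step (K k γ L j : ℕ) (q t : ℕ → ℕ) (Q u : ℕ) (z : Fin j → ℕ) (x : ℕ)
    (hc : Chain K q) (ht : ∀ y, t y < Tk (k + 2) y) (hQ1 : 1 ≤ Q)
    (hq : ∀ b ∈ Ico (8 * γ + 1) (16 * γ + 1), q b = Q)
    (hz : ∀ l, 1 ≤ z l ∧ z l ≤ L ∧ Q ∣ q (z l)) (hx : 1 ≤ x ∧ x ≤ L ∧ Q ∣ q x)
    (hx1 : ∑ l, z l ^ (k + 2) + (x ^ (k + 2) + (12 * γ) ^ (k + 2)) ≤ u)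
    (hx2 : u < ∑ l, z l ^ (k + 2) + (x ^ (k + 2) + (13 * γ) ^ (k + 2)))
    (hP : (j + 1) * (q L * (4 * (k + 2) * L ^ (k + 1))) ≤ γ ^ (k + 2))
    (hQ : (k + 2) * Q * 2 ^ (k + 2) + 2 * Q ≤ γ) :
    Gr (k + 2) Q 1 u (Fin.cons x z : Fin (j + 1) → ℕ) ≤
      ((Ico (8 * γ + 1) (16 * γ + 1)).filter (fun b => ∃ v < Tk (k + 2) b,
        b ^ (k + 2) + q b * v + (∑ l, A (k + 2) q t (z l) + A (k + 2) q t x) = u)).card := by
  classical
  obtain ⟨S, hS⟩ : ∃ S, S = ∑ l, A (k + 2) q t (z l) + A (k + 2) q t x := ⟨_, rfl⟩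
  obtain ⟨P, hPdef⟩ : ∃ P, P = q L * (4 * (k + 2) * L ^ (k + 1)) := ⟨_, rfl⟩
  rw [← hPdef] at hP
  simp only [← hS]
  have hS1 : S ≤ ∑ l, z l ^ (k + 2) + x ^ (k + 2) + γ ^ (k + 2) := by
    have g1 : ∑ l, A (k + 2) q t (z l) ≤ ∑ l, z l ^ (k + 2) + j * P := by
      calc ∑ l, A (k + 2) q t (z l) ≤ ∑ l : Fin j, (z l ^ (k + 2) + P) := by
            rw [hPdef]
            exact Finset.sum_le_sum fun l _ => A_bound hc t ht (hz l).1 (hz l).2.1
        _ = ∑ l, z l ^ (k + 2) + j * P := by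
            rw [Finset.sum_add_distrib]; simp
    have g2 := A_bound hc t ht hx.1 hx.2.1
    rw [← hPdef] at g2
    have g3 : (j + 1) * P = j * P + P := by ring
    omega
  have hS2 : ∑ l, z l ^ (k + 2) + x ^ (k + 2) ≤ S := by
    rw [hS]
    refine Nat.add_le_add (Finset.sum_le_sum fun l _ => ?_) ?_
    · exact Nat.le_add_right _ _
    · exact Nat.le_add_right _ _
  have hSmod : S ≡ ∑ l, z l ^ (k + 2) + x ^ (k + 2) [MOD Q] := by
    rw [hS]
    exact Nat.ModEq.add (sum_modEq _ _ _ _ fun l _ => A_mod t (hz l).2.2) (A_mod t hx.2.2)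
  have g5 := pow_gap (k + 2) γ 11 (by omega)
  norm_num at g5
  obtain ⟨Z, hZ⟩ : ∃ Z, Z + S = u := ⟨u - S, Nat.sub_add_cancel (by omega)⟩
  have hw : (11 * γ) ^ (k + 2) ≤ Z := by omega
  have hZ2 : Z < (13 * γ) ^ (k + 2) := by omega
  unfold Pool.Agent.V5helper6.RS.Gr
  refine Finset.card_le_card_of_surjOn (fun b => b % Q) ?_
  intro r hr
  simp only [Finset.coe_filter, Finset.mem_range, Set.mem_ofPred_eq, Fin.sum_univ_succ,
    Fin.cons_zero, Fin.cons_succ, one_mul] at hr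
  have hres : r ^ (k + 2) ≡ Z [MOD Q] := by
    refine Nat.ModEq.add_right_cancel' S ?_
    rw [hZ]
    have e1 : r ^ (k + 2) + S ≡ r ^ (k + 2) + (∑ l, z l ^ (k + 2) + x ^ (k + 2)) [MOD Q] :=
      Nat.ModEq.add_left _ hSmod
    refine e1.trans ?_
    have e2 : r ^ (k + 2) + (∑ l, z l ^ (k + 2) + x ^ (k + 2)) =
        x ^ (k + 2) + ∑ l, z l ^ (k + 2) + r ^ (k + 2) := by ring
    rw [e2]
    exact hr.2
  obtain ⟨b, b1, b2, b3, v, hv, hv2⟩ := core2 k Q Z r (11 * γ) hQ1 hr.1 hres hw (by omega)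
  have b4 : b < 13 * γ := lt_of_pow_lt_pow_left₀ (k + 2) (Nat.zero_le _) (b2.trans_lt hZ2)
  refine ⟨b, ?_, b3⟩
  have hbI : b ∈ Ico (8 * γ + 1) (16 * γ + 1) := by
    rw [Finset.mem_Ico]
    omega
  simp only [Finset.coe_filter, Set.mem_ofPred_eq]
  refine ⟨hbI, v, hv, ?_⟩
  rw [hq b hbI]
  omega

theorem sum_cons (Q j : ℕ) (f : (Fin (j + 1) → ℕ) → ℕ) :
    ∑ z ∈ Fintype.piFinset (fun _ : Fin j => range Q), ∑ x ∈ range Q,
      f (Fin.cons x z : Fin (j + 1) → ℕ) =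
      ∑ y ∈ Fintype.piFinset (fun _ : Fin (j + 1) => range Q), f y := by
  rw [← Finset.sum_product']
  refine Finset.sum_nbij' (fun p => (Fin.cons p.2 p.1 : Fin (j + 1) → ℕ))
    (fun y => (Fin.tail y, y 0)) ?_ ?_ ?_ ?_ ?_
  · rintro ⟨z, x⟩ h
    simp only [Finset.mem_product, Fintype.mem_piFinset, Finset.mem_range] at h ⊢
    intro l
    refine Fin.cases ?_ (fun l => ?_) l
    · simpa using h.2
    · simpa using h.1 l
  · intro y h
    simp only [Finset.mem_product, Fintype.mem_piFinset, Finset.mem_range] at h ⊢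
    exact ⟨fun l => h l.succ, h 0⟩
  · rintro ⟨z, x⟩ _
    simp
  · intro y _
    simp
  · rintro ⟨z, x⟩ _
    rfl

theorem Gr_cons_mod (k Q u : ℕ) {j : ℕ} (x : ℕ) (z : Fin j → ℕ) :
    Gr k Q 1 u (Fin.cons (x % Q) (fun l => z l % Q) : Fin (j + 1) → ℕ) =
      Gr k Q 1 u (Fin.cons x z : Fin (j + 1) → ℕ) := by
  rw [← Gr_mod k Q 1 u (Fin.cons x z : Fin (j + 1) → ℕ)]
  congr 1
  funext l
  refine Fin.cases ?_ (fun l => ?_) l
  · simp
  · simp

theorem main_step (K k γ L l e j : ℕ) (q t : ℕ → ℕ) (Q u : ℕ) (hRES : S_RES)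
    (hc : Chain K q) (ht : ∀ y, t y < Tk (k + 2) y) (hQ1 : 1 ≤ Q)
    (hq : ∀ b ∈ Ico (8 * γ + 1) (16 * γ + 1), q b = Q) (hγ : 1 ≤ γ)
    (he : 16 * γ ≤ e) (he2 : 8 * (j + 2) * e ≤ L)
    (hLγ : L ≤ 4096 * (j + 2) * γ)
    (hl : (k + 2) * 2 ^ (k + 1) * (4096 * (j + 2)) ^ (k + 2) * l ≤ L)
    (hP : (j + 1) * (q L * (4 * (k + 2) * L ^ (k + 1))) ≤ γ ^ (k + 2))
    (hQ : (k + 2) * Q * 2 ^ (k + 2) + 2 * Q ≤ γ)
    (hu1 : L ^ (k + 2) ≤ u) (hu2 : u < (L + 1) ^ (k + 2)) :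
    l / Q * ((e / Q) ^ j * M (k + 2) Q (j + 2) u) ≤
      ∑ b ∈ Ico (8 * γ + 1) (16 * γ + 1), ∑ v ∈ range (Tk (k + 2) b),
        (if b ^ (k + 2) + q b * v ≤ u then
          Rz (k + 2) q t e L j (u - (b ^ (k + 2) + q b * v)) else 0) := by
  classical
  set I := Ico (8 * γ + 1) (16 * γ + 1) with hI
  set Zs := Fintype.piFinset (fun _ : Fin j => Ioc e (2 * e)) with hZs
  set X := Ioc (2 * e) L with hX
  set E : ℕ → (Fin j → ℕ) × ℕ → Prop := fun b p =>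
    ∃ v < Tk (k + 2) b, b ^ (k + 2) + q b * v + (∑ l, A (k + 2) q t (p.1 l) + A (k + 2) q t p.2) = u
    with hE
  have hQq : q (8 * γ + 1) = Q := hq _ (Finset.mem_Ico.2 ⟨le_rfl, by omega⟩)
  have h1 : ∀ b, ∑ p ∈ Zs ×ˢ X, (if E b p then 1 else 0) ≤ ∑ v ∈ range (Tk (k + 2) b),
      (if b ^ (k + 2) + q b * v ≤ u then
        Rz (k + 2) q t e L j (u - (b ^ (k + 2) + q b * v)) else 0) := by
    intro b
    have e1 : ∑ v ∈ range (Tk (k + 2) b), (if b ^ (k + 2) + q b * v ≤ u then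
        Rz (k + 2) q t e L j (u - (b ^ (k + 2) + q b * v)) else 0) =
        ∑ p ∈ Zs ×ˢ X, ∑ v ∈ range (Tk (k + 2) b),
        (if b ^ (k + 2) + q b * v ≤ u ∧ ∑ l, A (k + 2) q t (p.1 l) + A (k + 2) q t p.2 =
          u - (b ^ (k + 2) + q b * v) then 1 else 0) := by
      rw [Finset.sum_comm]
      refine Finset.sum_congr rfl fun v _ => ?_
      by_cases h : b ^ (k + 2) + q b * v ≤ u
      · rw [if_pos h]
        simp only [h, true_and]
        rw [← Finset.card_filter]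
        rfl
      · rw [if_neg h]
        simp only [h, false_and, if_false, Finset.sum_const_zero]
    rw [e1]
    refine Finset.sum_le_sum fun p _ => ?_
    by_cases h : E b p
    · rw [if_pos h]
      obtain ⟨v, hv, hv2⟩ := h
      refine le_trans ?_ (Finset.single_le_sum (f := fun v => if b ^ (k + 2) + q b * v ≤ u ∧
        ∑ l, A (k + 2) q t (p.1 l) + A (k + 2) q t p.2 = u - (b ^ (k + 2) + q b * v)
          then 1 else 0) (fun _ _ => Nat.zero_le _) (Finset.mem_range.2 hv))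
      rw [if_pos ⟨by omega, by omega⟩]
    · rw [if_neg h]
      exact Nat.zero_le _
  set G' : (Fin j → ℕ) → ℕ := fun z => ∑ x ∈ range Q,
    Gr (k + 2) Q 1 u (Fin.cons x z : Fin (j + 1) → ℕ) with hG'
  have h2 : ∀ z ∈ Zs, l / Q * G' z ≤ ∑ x ∈ X, (I.filter (fun b => E b (z, x))).card := by
    intro z hz
    have hz' : ∀ l, e < z l ∧ z l ≤ 2 * e := by
      intro l
      exact Finset.mem_Ioc.1 (Fintype.mem_piFinset.1 hz l)
    have heL : 2 * e ≤ L := by nlinarith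
    have hzL : ∀ l, 1 ≤ z l ∧ z l ≤ L ∧ Q ∣ q (z l) := by
      intro l
      obtain ⟨g1, g2⟩ := hz' l
      refine ⟨by omega, by omega, ?_⟩
      rw [← hQq]
      exact hc.dvd (by omega)
    have hsum : ∑ l, z l ^ (k + 2) + ((2 * e) ^ (k + 2) + (13 * γ) ^ (k + 2)) ≤ u := by
      have g1 : ∑ l, z l ^ (k + 2) ≤ j * (2 * e) ^ (k + 2) := by
        calc ∑ l, z l ^ (k + 2) ≤ ∑ _l : Fin j, (2 * e) ^ (k + 2) :=
              Finset.sum_le_sum fun l _ => Nat.pow_le_pow_left (hz' l).2 _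
          _ = j * (2 * e) ^ (k + 2) := by simp
      have g2 : (13 * γ) ^ (k + 2) ≤ (2 * e) ^ (k + 2) := Nat.pow_le_pow_left (by omega) _
      have g3 : (j + 2) * (2 * e) ^ (k + 2) ≤ L ^ (k + 2) := by
        have q1 : (4 * (j + 2) * (2 * e)) ^ (k + 2) ≤ L ^ (k + 2) := by
          refine Nat.pow_le_pow_left ?_ _
          calc 4 * (j + 2) * (2 * e) = 8 * (j + 2) * e := by ring
            _ ≤ L := he2
        refine le_trans ?_ q1
        rw [mul_pow (4 * (j + 2)) (2 * e)]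
        refine Nat.mul_le_mul_right _ ?_
        exact le_trans (by omega) (Nat.le_self_pow (by omega) (4 * (j + 2)))
      have g4 : (j + 2) * (2 * e) ^ (k + 2) = j * (2 * e) ^ (k + 2) + 2 * (2 * e) ^ (k + 2) := by
        ring
      omega
    obtain ⟨Y, hY⟩ : ∃ Y, Y + ∑ l, z l ^ (k + 2) = u :=
      ⟨u - ∑ l, z l ^ (k + 2), Nat.sub_add_cancel (by omega)⟩
    obtain ⟨a, a1, a2, a3⟩ := xrange k (j + 2) γ L Y l e (by omega) hLγ hl (by omega) (by omega)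
    have g1 := interval_ge Q (fun x => Gr (k + 2) Q 1 u (Fin.cons x z : Fin (j + 1) → ℕ)) a l
    refine g1.trans ?_
    have hsub : Ico a (a + l) ⊆ X := by
      intro x hx
      rw [Finset.mem_Ico] at hx
      rw [hX, Finset.mem_Ioc]
      omega
    refine le_trans (Finset.sum_le_sum fun x hx => ?_) (Finset.sum_le_sum_of_subset hsub)
    have g2 : Gr (k + 2) Q 1 u (Fin.cons (x % Q) z : Fin (j + 1) → ℕ) =
        Gr (k + 2) Q 1 u (Fin.cons x z : Fin (j + 1) → ℕ) := by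
      rw [← Gr_cons_mod, ← Gr_cons_mod (k + 2) Q u x z, Nat.mod_mod]
    show Gr (k + 2) Q 1 u (Fin.cons (x % Q) z : Fin (j + 1) → ℕ) ≤ _
    rw [g2]
    have hxX := hsub hx
    rw [hX, Finset.mem_Ioc] at hxX
    obtain ⟨c1, c2⟩ := a3 x hx
    refine step K k γ L j q t Q u z x hc ht hQ1 hq hzL ⟨by omega, by omega, ?_⟩ (by omega)
      (by omega) hP hQ
    rw [← hQq]
    exact hc.dvd (by omega)
  have h3 : l / Q * ((e / Q) ^ j * M (k + 2) Q (j + 2) u) ≤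
      ∑ z ∈ Zs, ∑ x ∈ X, (I.filter (fun b => E b (z, x))).card := by
    have g1 := (hRES Q j G' hQ1).2 e
    have g2 : ∀ z : Fin j → ℕ, G' (fun l => z l % Q) = G' z := by
      intro z
      refine Finset.sum_congr rfl fun x _ => ?_
      rw [← Gr_cons_mod, ← Gr_cons_mod (k + 2) Q u x z]
      simp only [Nat.mod_mod]
    simp only [g2] at g1
    rw [hG'] at g1
    rw [sum_cons Q j (fun y => Gr (k + 2) Q 1 u y), sum_Gr] at g1
    calc l / Q * ((e / Q) ^ j * M (k + 2) Q (j + 2) u) ≤ l / Q * ∑ z ∈ Zs, G' z :=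
          Nat.mul_le_mul_left _ g1
      _ = ∑ z ∈ Zs, l / Q * G' z := by rw [Finset.mul_sum]
      _ ≤ _ := Finset.sum_le_sum h2
  refine h3.trans ?_
  have h4 : ∑ z ∈ Zs, ∑ x ∈ X, (I.filter (fun b => E b (z, x))).card =
      ∑ b ∈ I, ∑ p ∈ Zs ×ˢ X, (if E b p then 1 else 0) := by
    rw [Finset.sum_comm (s := I), Finset.sum_product]
    refine Finset.sum_congr rfl fun z _ => Finset.sum_congr rfl fun x _ => ?_
    exact Finset.card_filter _ _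
  rw [h4]
  exact Finset.sum_le_sum fun b _ => h1 b

theorem log_small (C K : ℕ) : ∃ L₀ : ℕ, 1 ≤ L₀ ∧ ∀ L, L₀ ≤ L →
    C * (K + Nat.log 2 (L + 1)) ≤ L := by
  obtain ⟨m₀, hm₀⟩ : ∃ m₀, m₀ = 2 * (C * (K + 2) + 1) := ⟨_, rfl⟩
  refine ⟨C * (K + m₀) + 1, by omega, fun L hL => ?_⟩
  obtain ⟨m, hm⟩ : ∃ m, m = Nat.log 2 (L + 1) := ⟨_, rfl⟩
  rw [← hm]
  have h1 : 2 ^ m ≤ L + 1 := by
    rw [hm]
    exact Nat.pow_log_le_self 2 (by omega)
  rcases Nat.lt_or_ge m m₀ with h | h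
  · have : C * (K + m) ≤ C * (K + m₀) := Nat.mul_le_mul_left _ (by omega)
    omega
  · obtain ⟨h', hh'⟩ : ∃ h', h' = m / 2 := ⟨_, rfl⟩
    have h2 : h' + 1 ≤ 2 ^ h' := Nat.lt_two_pow_self
    have h3 : 2 ^ h' * 2 ^ h' ≤ 2 ^ m := by
      rw [← pow_add]
      exact Nat.pow_le_pow_right (by norm_num) (by omega)
    have h4 : (h' + 1) * (h' + 1) ≤ 2 ^ h' * 2 ^ h' := Nat.mul_le_mul h2 h2
    have h5 : C * (K + 2) + 1 ≤ h' := by omega
    have h6 : (C * (K + 2) + 2) * (h' + 1) ≤ (h' + 1) * (h' + 1) :=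
      Nat.mul_le_mul_right _ (by omega)
    have h7 : C * (K + m) ≤ C * (K + 2) * (h' + 1) := by
      rw [mul_assoc]
      refine Nat.mul_le_mul_left _ ?_
      have q1 : m ≤ 2 * h' + 1 := by omega
      have q2 : (K + 2) * (h' + 1) = K * h' + K + 2 * h' + 2 := by ring
      rw [q2]
      have q3 : 0 ≤ K * h' := Nat.zero_le _
      omega
    have h8 : (C * (K + 2) + 2) * (h' + 1) = C * (K + 2) * (h' + 1) + 2 * (h' + 1) := by ring
    omega

/-- the choice of `γ` -/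
theorem choose_gamma (K d L : ℕ) (q : ℕ → ℕ) (hc : Chain K q) (hd : 1 ≤ d)
    (hL : 2048 * d * (4096 * d) ≤ L) :
    ∃ γ, 1 ≤ γ ∧ 512 * d * γ ≤ L ∧ L ≤ 4096 * d * γ ∧
      ∀ b ∈ Ico (8 * γ + 1) (16 * γ + 1), q b = q (8 * γ + 1) := by
  obtain ⟨s, hs⟩ : ∃ s, s = L / (2048 * d) := ⟨_, rfl⟩
  have hs1 : 4096 * d ≤ s := by
    rw [hs, Nat.le_div_iff_mul_le (by omega)]
    calc 4096 * d * (2048 * d) = 2048 * d * (4096 * d) := by ring
      _ ≤ L := hL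
  have hs2 : 2048 * d * s ≤ L := by rw [hs]; exact Nat.mul_div_le L (2048 * d)
  have hs3 : L ≤ 4096 * d * s := by
    have h1 := Nat.lt_div_mul_add (a := L) (show 0 < 2048 * d by omega)
    rw [← hs] at h1
    have h2 : 2048 * d ≤ s * (2048 * d) := Nat.le_mul_of_pos_left _ (by omega)
    have h3 : 4096 * d * s = s * (2048 * d) + s * (2048 * d) := by ring
    omega
  have hsL : s ≤ L := le_trans (Nat.le_mul_of_pos_left _ (by omega)) hs2
  have hL4 : L ≤ s ^ 4 := by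
    calc L ≤ 4096 * d * s := hs3
      _ ≤ s * s := Nat.mul_le_mul_right _ hs1
      _ = s ^ 2 := by ring
      _ ≤ s ^ 4 := Nat.pow_le_pow_right (by omega) (by norm_num)
  obtain ⟨-, h2⟩ := hc.two hsL hL4
  have hmono : ∀ x y, x ≤ y → q x ≤ q y := fun x y h => hc.mono h
  have h4 : 16 * (4 * s) ≤ L := by
    have : 64 * s ≤ 2048 * d * s := Nat.mul_le_mul_right _ (by omega)
    omega
  by_cases hcase : q (8 * (4 * s) + 1) = q (16 * (4 * s))
  · refine ⟨4 * s, by omega, ?_, ?_, fun b hb => ?_⟩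
    · calc 512 * d * (4 * s) = 2048 * d * s := by ring
        _ ≤ L := hs2
    · calc L ≤ 4096 * d * s := hs3
        _ ≤ 4096 * d * (4 * s) := Nat.mul_le_mul_left _ (by omega)
    · rw [Finset.mem_Ico] at hb
      have g1 := hmono (8 * (4 * s) + 1) b hb.1
      have g2 := hmono b (16 * (4 * s)) (by omega)
      omega
  · have hx : q (8 * (4 * s) + 1) = q s := by
      rcases h2 (8 * (4 * s) + 1) (by omega) (by omega) with h | h
      · exact h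
      · exfalso
        apply hcase
        have g1 := hmono (8 * (4 * s) + 1) (16 * (4 * s)) (by omega)
        have g2 := hmono (16 * (4 * s)) L (by omega)
        omega
    refine ⟨s, by omega, ?_, hs3, fun b hb => ?_⟩
    · refine le_trans (Nat.mul_le_mul_right _ (Nat.mul_le_mul_right _ ?_)) hs2
      norm_num
    · rw [Finset.mem_Ico] at hb
      have g1 := hmono s b (by omega)
      have g2 := hmono b (8 * (4 * s) + 1) (by omega)
      have g3 := hmono s (8 * s + 1) (by omega)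
      have g4 := hmono (8 * s + 1) (8 * (4 * s) + 1) (by omega)
      omega

theorem half_floor (a b : ℕ) (hb : 1 ≤ b) (h : b ≤ a) : (a : ℝ) / (2 * b) ≤ ((a / b : ℕ) : ℝ) := by
  have hbr : (0 : ℝ) < b := by exact_mod_cast hb
  rw [div_le_iff₀ (by positivity)]
  have h1 : a < a / b * b + b := Nat.lt_div_mul_add hb
  have h2 : 1 ≤ a / b := (Nat.one_le_div_iff hb).2 h
  have h3 : b ≤ a / b * b := Nat.le_mul_of_pos_left _ h2
  have h4 : a ≤ a / b * (2 * b) := by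
    have : a / b * (2 * b) = a / b * b + a / b * b := by ring
    omega
  exact_mod_cast h4

theorem t_LOWM2 : S_LOWM2 := by
  intro hRES k K q d hk hd hc
  obtain ⟨k, rfl⟩ : ∃ k', k = k' + 2 := ⟨k - 2, by omega⟩
  obtain ⟨j, rfl⟩ : ∃ j, d = j + 2 := ⟨d - 2, by omega⟩
  obtain ⟨c₁, hc₁⟩ : ∃ c₁, c₁ = (k + 2) * 2 ^ (k + 1) * (4096 * (j + 2)) ^ (k + 2) := ⟨_, rfl⟩
  have hc₁0 : 1 ≤ c₁ := by
    rw [hc₁]
    exact Nat.one_le_iff_ne_zero.2 (by positivity)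
  have hc₁r : (0 : ℝ) < c₁ := by exact_mod_cast hc₁0
  refine ⟨1 / (2 * c₁ * (32 * (j + 2)) ^ j * (4 * (k + 2))), by positivity, ?_⟩
  obtain ⟨C1, hC1⟩ : ∃ C1, C1 = (4096 * (j + 2)) ^ (k + 2) * ((j + 1) * (4 * (k + 2))) := ⟨_, rfl⟩
  obtain ⟨C2, hC2⟩ : ∃ C2, C2 = 4096 * (j + 2) * ((k + 2) * 2 ^ (k + 2) + 2) := ⟨_, rfl⟩
  obtain ⟨C3, hC3⟩ : ∃ C3, C3 = 2048 * (j + 2) * (4096 * (j + 2)) := ⟨_, rfl⟩
  obtain ⟨L₀, hL₀, hlog⟩ := log_small (C1 + C2 + C3 + c₁ + 16 * (j + 2)) K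
  refine ⟨L₀, hL₀, fun L hL => ?_⟩
  have hL1 : 1 ≤ L := by omega
  have hqL1 : 1 ≤ q L := hc.pos L
  have hbig : (C1 + C2 + C3 + c₁ + 16 * (j + 2)) * q L ≤ L :=
    (Nat.mul_le_mul_left _ (hc.slow L)).trans (hlog L hL)
  have hb1 : C1 * q L ≤ L := le_trans (Nat.mul_le_mul_right _ (by omega)) hbig
  have hb2 : C2 * q L ≤ L := le_trans (Nat.mul_le_mul_right _ (by omega)) hbig
  have hb3 : C3 ≤ L := le_trans (Nat.le_mul_of_pos_right _ hqL1)
    (le_trans (Nat.mul_le_mul_right _ (by omega)) hbig)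
  have hb4 : c₁ * q L ≤ L := le_trans (Nat.mul_le_mul_right _ (by omega)) hbig
  have hb5 : 16 * (j + 2) * q L ≤ L := le_trans (Nat.mul_le_mul_right _ (by omega)) hbig
  rw [hC3] at hb3
  obtain ⟨γ, hγ, hγL, hLγ, hconst⟩ := choose_gamma K (j + 2) L q hc (by omega) hb3
  have hγL2 : 16 * γ ≤ L := by
    refine le_trans (Nat.mul_le_mul_right _ ?_) hγL
    omega
  obtain ⟨Q, hQdef⟩ : ∃ Q, Q = q (8 * γ + 1) := ⟨_, rfl⟩
  have hQ1 : 1 ≤ Q := by rw [hQdef]; exact hc.pos _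
  have hQL : Q ≤ q L := by rw [hQdef]; exact hc.mono (by omega)
  have he : 16 * γ ≤ L / (16 * (j + 2)) := by
    rw [Nat.le_div_iff_mul_le (by omega)]
    calc 16 * γ * (16 * (j + 2)) = 256 * (j + 2) * γ := by ring
      _ ≤ 512 * (j + 2) * γ := Nat.mul_le_mul_right _ (Nat.mul_le_mul_right _ (by norm_num))
      _ ≤ L := hγL
  refine ⟨8 * γ + 1, 16 * γ + 1, by omega, by omega, fun u hu1 hu2 t ht => ?_⟩
  rw [← hQdef]
  obtain ⟨e, hedef⟩ : ∃ e, e = L / (16 * (j + 2)) := ⟨_, rfl⟩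
  rw [← hedef] at he ⊢
  have he2 : 16 * (j + 2) * e ≤ L := by rw [hedef]; exact Nat.mul_div_le L _
  have hP : (j + 1) * (q L * (4 * (k + 2) * L ^ (k + 1))) ≤ γ ^ (k + 2) := by
    have g2 : (4096 * (j + 2)) ^ (k + 2) * ((j + 1) * (q L * (4 * (k + 2) * L ^ (k + 1)))) ≤
        (4096 * (j + 2)) ^ (k + 2) * γ ^ (k + 2) := by
      calc (4096 * (j + 2)) ^ (k + 2) * ((j + 1) * (q L * (4 * (k + 2) * L ^ (k + 1)))) =
            (C1 * q L) * L ^ (k + 1) := by rw [hC1]; ring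
        _ ≤ L * L ^ (k + 1) := Nat.mul_le_mul_right _ hb1
        _ = L ^ (k + 2) := by ring
        _ ≤ (4096 * (j + 2) * γ) ^ (k + 2) := Nat.pow_le_pow_left hLγ _
        _ = (4096 * (j + 2)) ^ (k + 2) * γ ^ (k + 2) := by rw [mul_pow]
    exact Nat.le_of_mul_le_mul_left g2 (by positivity)
  have hQ2 : (k + 2) * Q * 2 ^ (k + 2) + 2 * Q ≤ γ := by
    have g1 : 4096 * (j + 2) * ((k + 2) * Q * 2 ^ (k + 2) + 2 * Q) ≤ 4096 * (j + 2) * γ := by
      calc 4096 * (j + 2) * ((k + 2) * Q * 2 ^ (k + 2) + 2 * Q) = C2 * Q := by rw [hC2]; ring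
        _ ≤ C2 * q L := Nat.mul_le_mul_left _ hQL
        _ ≤ L := hb2
        _ ≤ 4096 * (j + 2) * γ := hLγ
    exact Nat.le_of_mul_le_mul_left g1 (by omega)
  have hl : (k + 2) * 2 ^ (k + 1) * (4096 * (j + 2)) ^ (k + 2) * (L / c₁) ≤ L := by
    rw [← hc₁]
    exact Nat.mul_div_le L c₁
  have key := main_step K k γ L (L / c₁) e j q t Q u hRES hc ht hQ1
    (fun b hb => by rw [hQdef]; exact hconst b hb) hγ he
    (le_trans (Nat.mul_le_mul_right _ (Nat.mul_le_mul_right _ (by norm_num))) he2) hLγ hl hP hQ2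
    hu1 hu2
  -- real numbers
  have hLr : (0 : ℝ) < L := by exact_mod_cast hL1
  have hQr : (0 : ℝ) < Q := by exact_mod_cast hQ1
  have h4 : (L : ℝ) / (2 * (c₁ * Q)) ≤ ((L / c₁ / Q : ℕ) : ℝ) := by
    rw [Nat.div_div_eq_div_mul]
    have := half_floor L (c₁ * Q) (Nat.mul_pos hc₁0 hQ1)
      (le_trans (Nat.mul_le_mul_left _ hQL) hb4)
    push_cast at this
    exact this
  have h5 : (L : ℝ) / (2 * (16 * (j + 2) * Q)) ≤ ((e / Q : ℕ) : ℝ) := by
    rw [hedef, Nat.div_div_eq_div_mul]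
    have := half_floor L (16 * (j + 2) * Q) (Nat.mul_pos (by omega) hQ1)
      (le_trans (Nat.mul_le_mul_left _ hQL) hb5)
    push_cast at this
    exact this
  set I := Ico (8 * γ + 1) (16 * γ + 1) with hI
  set Nb : ℕ → ℕ := fun b => ∑ v ∈ range (Tk (k + 2) b), (if b ^ (k + 2) + q b * v ≤ u then
    Rz (k + 2) q t e L j (u - (b ^ (k + 2) + q b * v)) else 0) with hNb
  have h6 : (L : ℝ) / (2 * (c₁ * Q)) * ((L / (2 * (16 * (j + 2) * Q))) ^ j *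
      M (k + 2) Q (j + 2) u) ≤ ∑ b ∈ I, (Nb b : ℝ) := by
    have g1 : ((L / c₁ / Q : ℕ) : ℝ) * (((e / Q : ℕ) : ℝ) ^ j * M (k + 2) Q (j + 2) u) ≤
        ∑ b ∈ I, (Nb b : ℝ) := by
      have := key
      exact_mod_cast this
    refine le_trans ?_ g1
    refine mul_le_mul h4 (mul_le_mul_of_nonneg_right (pow_le_pow_left₀ (by positivity) h5 _)
      (Nat.cast_nonneg _)) (by positivity) (by positivity)
  have h7 : (∑ b ∈ I, (Nb b : ℝ)) / (4 * (k + 2) * (L : ℝ) ^ (k + 1)) ≤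
      ∑ b ∈ I, (∑ v ∈ range (Tk (k + 2) b), (if b ^ (k + 2) + q b * v ≤ u then
        (Rz (k + 2) q t e L j (u - (b ^ (k + 2) + q b * v)) : ℝ) else 0)) / Tk (k + 2) b := by
    rw [Finset.sum_div]
    refine Finset.sum_le_sum fun b hb => ?_
    rw [hI, Finset.mem_Ico] at hb
    have g1 : (Nb b : ℝ) = ∑ v ∈ range (Tk (k + 2) b), (if b ^ (k + 2) + q b * v ≤ u then
        (Rz (k + 2) q t e L j (u - (b ^ (k + 2) + q b * v)) : ℝ) else 0) := by
      simp only [hNb]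
      push_cast
      rfl
    rw [← g1]
    have hT := Tk_eq (k + 2) b (by omega) (by omega)
    rw [show k + 2 - 1 = k + 1 from rfl] at hT
    have g2 : Tk (k + 2) b ≤ 4 * (k + 2) * L ^ (k + 1) := by
      rw [hT]
      exact Nat.mul_le_mul_left _ (Nat.pow_le_pow_left (by omega) _)
    have g3 : (Tk (k + 2) b : ℝ) ≤ 4 * (k + 2) * (L : ℝ) ^ (k + 1) := by exact_mod_cast g2
    have g4 : (0 : ℝ) < Tk (k + 2) b := by exact_mod_cast Tk_pos (k + 2) b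
    exact div_le_div_of_nonneg_left (Nat.cast_nonneg _) g4 g3
  have hj : j + 2 - 2 = j := rfl
  rw [hj]
  refine le_trans ?_ h7
  refine le_trans ?_ (div_le_div_of_nonneg_right h6 (by positivity))
  apply le_of_eq
  have hj1 : j + 2 - 1 = j + 1 := rfl
  rw [hj1]
  have h32 : (32 : ℝ) ^ j = 2 ^ j * 16 ^ j := by rw [← mul_pow]; norm_num
  simp only [div_pow, mul_pow]
  rw [h32]
  push_cast
  field_simp
  ring

end Pool.Agent.V5helper41.RC
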